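import Pool.Agent.N201.SQ.Final

/-!
# Rectangles without primes of the form `n² + a`, and sums of error terms

No hypothesis is assumed.  Write `log₂ Y = log log Y` and so on.  The values `n² + a`, `x ≤ n < x + H`, `|a| ≤ A`, are the
integers within `A` of one of `H` consecutive squares.  For all large `Y` every interval `(M, M + Y]`, `M ≥ Y`, contains an
integer `x` for which none of them is a prime or the negative of a prime, as long as
* `A H ≤ c log Y log₂ Y`; here the `H` consecutive integers may be replaced by any `H` integers of size at most `(log Y) ^ b`;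
* or `H ≤ √(log Y) / 4` and `A ≤ (log Y) / 2` (then up to a constant times `(log Y) ^ (3 / 2)` values);
* or `H ≤ √(log Y) / 4` and `A H ≤ c log Y (log₂ Y)² log₄ Y / (log₃ Y)²`.
Consequently the error terms of the formula of Hardy and Littlewood for different `a` cannot cancel: for some `N` in every
`[M, M + 2 Y]` their sum over the admissible `a`, `|a| ≤ A`, is at least `(1 / 4) H / log M` times the sum of the constants, with the
largest `H` that is possible for `A` (for `M = Y`: of the order `log₂ N` for bounded `A`, and `√(log N)` for `A = (log N) / 2`).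

For `H = 1` (one square) the third case is `MP_028722_nt.SquaresInRecordGaps` of the starting library (helper378, helper769,
helper365, helper944, helper704, helper144, helper74, after the record sieve of helper256 and team), whose sieve is used here;
for bounded `A` the first case follows from `MP_a1177c_nt.SimultaneousComposites` (helper201).  For `A` and `H` growing together:
* the values for different pairs `(k, a)` are the values of different polynomials `(X + k)² + a`, with numbers of roots that depend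
  on `a` and the prime.  The covering sieve has densities depending on the pair, and before it the pairs with few covering
  primes are removed by the small primes, chosen greedily for a weighted average over the whole set of pairs (`N201.SQ.Avg2`);
* in the second case `x` is divisible by all primes up to `0.6 log Y`, so that only the pairs with `k² + a = ± 1` remain;
* in the third case `x` is 0 or 1 modulo the primes up to `(log Y) / 10`, as in the starting library for one square; the
  survivors near `(x + k)²` are counted with a loss of `(2 k + 1) / φ(2 k + 1)`, which is bounded on average over `k`.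
-/

set_option autoImplicit false

namespace Pool.Agent.Results.MP_391708_nt.PrimeFreeRectangles

/-- the record length `log Y (log₂ Y)² log₄ Y / (log₃ Y)²` -/
noncomputable def recordLength (Y : ℝ) : ℝ :=
  Real.log Y * (Real.log (Real.log Y)) ^ 2 * Real.log (Real.log (Real.log (Real.log Y))) /
    (Real.log (Real.log (Real.log Y))) ^ 2

/-- the sizes `A`, `H` of the rectangles: `A H ≤ c log Y log₂ Y`, or `H ≤ √(log Y) / 4` and (`A ≤ (log Y) / 2` or
`A H ≤ c recordLength Y`) -/
def InRange (c Y : ℝ) (A H : ℕ) : Prop :=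
  (A : ℝ) * H ≤ c * Real.log Y * Real.log (Real.log Y) ∨
    ((H : ℝ) ≤ √(Real.log Y) / 4 ∧ ((A : ℝ) ≤ Real.log Y / 2 ∨ (A : ℝ) * H ≤ c * recordLength Y))

open scoped Classical in
/-- the integers `a`, `|a| ≤ A`, that are not of the form `-m ^ 2` -/
noncomputable def admissible (A : ℕ) : Finset ℤ :=
  (Finset.Icc (-(A : ℤ)) A).filter (fun a => ¬ ∃ m : ℤ, a = -m ^ 2)

/-- `P a N` is the number of `1 ≤ n ≤ N` such that `|n ^ 2 + a|` is prime -/
noncomputable def P (a : ℤ) (N : ℕ) : ℕ :=
  ((Finset.Icc 1 N).filter (fun n : ℕ => ((n : ℤ) ^ 2 + a).natAbs.Prime)).card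

/-- Let `b` be a natural number.  There are `c > 0` and `Y₀` such that for all real `Y ≥ Y₀`, all natural `M ≥ Y` and all
`A, H ≥ 1`:
(1) if `A H ≤ c log Y log log Y`, then for every set `K` of `H` integers of absolute value at most `(log Y) ^ b` there is an
integer `x` in `(M, M + Y]` such that no `|(x + k) ^ 2 + a|`, `k ∈ K`, `|a| ≤ A`, is prime;
(2) if `A`, `H` are in the range above, there is an integer `x` in `(M, M + Y]` such that no `|(x + k) ^ 2 + a|`,
`0 ≤ k < H`, `|a| ≤ A`, is prime;
(3) if `A`, `H` are in the range above, then for all constants `κ a ≥ 0` there is `N` in `[M, M + 2 Y]` such that the sum of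
`P a N - κ a ∫_2^N dt / log t` over the admissible `a`, `|a| ≤ A`, has absolute value at least
`(1 / 4) (∑ κ a) H / log M`. -/
theorem result (b : ℕ) : ∃ c : ℝ, 0 < c ∧ ∃ Y₀ : ℝ, ∀ Y : ℝ, Y₀ ≤ Y → ∀ M : ℕ, Y ≤ M →
    ∀ A H : ℕ, 1 ≤ A → 1 ≤ H →
      ((A : ℝ) * H ≤ c * Real.log Y * Real.log (Real.log Y) →
        ∀ K : Finset ℤ, K.card = H → (∀ k ∈ K, |(k : ℝ)| ≤ (Real.log Y) ^ b) →
          ∃ x : ℤ, (M : ℤ) < x ∧ (x : ℝ) ≤ M + Y ∧ ∀ k ∈ K, ∀ a : ℤ, |a| ≤ A →
            ¬ ((x + k) ^ 2 + a).natAbs.Prime) ∧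
      (InRange c Y A H →
        ∃ x : ℤ, (M : ℤ) < x ∧ (x : ℝ) ≤ M + Y ∧ ∀ k : ℤ, 0 ≤ k → k < H → ∀ a : ℤ, |a| ≤ A →
          ¬ ((x + k) ^ 2 + a).natAbs.Prime) ∧
      (InRange c Y A H → ∀ κ : ℤ → ℝ, (∀ a, 0 ≤ κ a) →
        ∃ N : ℕ, M ≤ N ∧ (N : ℝ) ≤ M + 2 * Y ∧
          (1 / 4) * (∑ a ∈ admissible A, κ a) * (H / Real.log M) ≤
            |∑ a ∈ admissible A, ((P a N : ℝ) - κ a * ∫ t in (2 : ℝ)..N, 1 / Real.log t)|) := by
  obtain ⟨c₁, hc₁, hc₁1, Y₁, h₁⟩ := Pool.Agent.N201.SQ.rect (max b 2)
  obtain ⟨c₂, hc₂, -, Y₂, h₂⟩ := Pool.Agent.N201.SQ.err admissible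
    (fun A a ha => by
      classical
      have := (Finset.mem_filter.1 ha).1
      rw [Finset.mem_Icc] at this
      exact abs_le.2 this)
  refine ⟨min c₁ c₂, lt_min hc₁ hc₂, max (max Y₁ Y₂) (Real.exp 10000), fun Y hY M hYM A H hA hH => ?_⟩
  have hY1 : Y₁ ≤ Y := (le_max_left _ _).trans ((le_max_left _ _).trans hY)
  have hY2 : Y₂ ≤ Y := (le_max_right _ _).trans ((le_max_left _ _).trans hY)
  have hYe : Real.exp 10000 ≤ Y := (le_max_right _ _).trans hY
  have hL : 10000 ≤ Real.log Y := by
    rw [← Real.log_exp 10000]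
    exact Real.log_le_log (Real.exp_pos _) hYe
  have hl : 0 < Real.log (Real.log Y) := Real.log_pos (by linarith)
  have hAH0 : 0 < (A : ℝ) * H := by
    have hA1 : (1 : ℝ) ≤ A := by exact_mod_cast hA
    have hH1 : (1 : ℝ) ≤ H := by exact_mod_cast hH
    positivity
  have hc1 := min_le_left c₁ c₂
  have hc2 := min_le_right c₁ c₂
  have hc0 : 0 < min c₁ c₂ := lt_min hc₁ hc₂
  have hll : ∀ c', min c₁ c₂ ≤ c' → (A : ℝ) * H ≤ min c₁ c₂ * Real.log Y * Real.log (Real.log Y) →
      (A : ℝ) * H ≤ c' * Real.log Y * Real.log (Real.log Y) := by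
    intro c' hc' h
    refine h.trans ?_
    gcongr
  have hR : ∀ c', min c₁ c₂ ≤ c' → (A : ℝ) * H ≤ min c₁ c₂ * recordLength Y →
      (A : ℝ) * H ≤ c' * Pool.Agent.H256R2.SC.ff Y := by
    intro c' hc' h
    have h0 : 0 < recordLength Y := by
      by_contra hcon
      push Not at hcon
      have := mul_nonpos_of_nonneg_of_nonpos hc0.le hcon
      linarith
    exact h.trans (mul_le_mul_of_nonneg_right hc' h0.le)
  have hrange : ∀ c', min c₁ c₂ ≤ c' → InRange (min c₁ c₂) Y A H →
      ((A : ℝ) * H ≤ c' * Real.log Y * Real.log (Real.log Y) ∨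
      (16 * (H : ℝ) ^ 2 ≤ Real.log Y ∧
        (2 * (A : ℝ) ≤ Real.log Y ∨ (A : ℝ) * H ≤ c' * Pool.Agent.H256R2.SC.ff Y))) := by
    rintro c' hc' (h | ⟨h, h'⟩)
    · exact Or.inl (hll c' hc' h)
    · refine Or.inr ⟨?_, ?_⟩
      · have h3 : 4 * (H : ℝ) ≤ √(Real.log Y) := by linarith
        have h4 := Real.sq_sqrt (show 0 ≤ Real.log Y by linarith)
        have h5 : (4 * (H : ℝ)) ^ 2 ≤ (√(Real.log Y)) ^ 2 :=
          pow_le_pow_left₀ (by positivity) h3 2
        rw [h4] at h5
        linarith
      · rcases h' with h' | h'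
        · exact Or.inl (by linarith)
        · exact Or.inr (hR c' hc' h')
  refine ⟨fun h K hK hKb => ?_, fun h => ?_, fun h κ hκ => ?_⟩
  · obtain ⟨x, hx1, hx2, hx3⟩ := h₁ Y hY1 M (by exact_mod_cast hYM) A H K hA hH
      (Or.inl ⟨hK, fun k hk => (hKb k hk).trans
        (pow_le_pow_right₀ (by linarith) (le_max_left _ _)), hll c₁ hc1 h⟩)
    exact ⟨x, hx1, by exact_mod_cast hx2, hx3⟩
  · obtain ⟨x, hx1, hx2, hx3⟩ := h₁ Y hY1 M (by exact_mod_cast hYM) A H (Finset.Ico (0 : ℤ) H) hA hH
      (by
        rcases hrange c₁ hc1 h with h' | h'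
        · left
          refine ⟨by simp, ?_, h'⟩
          intro k hk
          rw [Finset.mem_Ico] at hk
          have k1' : (0 : ℝ) ≤ k := by exact_mod_cast hk.1
          have k2' : (k : ℝ) ≤ H := by exact_mod_cast hk.2.le
          rw [abs_of_nonneg k1']
          have hA1 : (1 : ℝ) ≤ A := by exact_mod_cast hA
          have hlL : Real.log (Real.log Y) ≤ Real.log Y :=
            (Real.log_le_sub_one_of_pos (by linarith)).trans (by linarith)
          calc (k : ℝ) ≤ H := k2'
            _ = 1 * H := (one_mul _).symm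
            _ ≤ A * H := mul_le_mul_of_nonneg_right hA1 (Nat.cast_nonneg _)
            _ ≤ c₁ * Real.log Y * Real.log (Real.log Y) := h'
            _ ≤ 1 * Real.log Y * Real.log Y := by gcongr
            _ = (Real.log Y) ^ 2 := by ring
            _ ≤ (Real.log Y) ^ (max b 2) := pow_le_pow_right₀ (by linarith) (le_max_right _ _)
        · exact Or.inr ⟨rfl, h'⟩)
    exact ⟨x, hx1, by exact_mod_cast hx2, fun k hk1 hk2 => hx3 k (Finset.mem_Ico.2 ⟨hk1, hk2⟩)⟩
  · exact h₂ Y hY2 M hYM A H hA hH (hrange c₂ hc2 h) κ hκ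

end Pool.Agent.Results.MP_391708_nt.PrimeFreeRectangles
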