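import Pool.Agent.N201.SP.Omega

/-!
# Several polynomials have composite values at the same long runs of arguments

No hypothesis is assumed.  Let `F` be a finite set of nonconstant integer polynomials (of any degrees, with different splitting
fields; for instance finitely many admissible quadratic polynomials).  Every interval `(M, M + Y]`, `M ≥ Y`, contains an integer
`x` such that all the numbers `f (x + s)`, `f ∈ F`, `s ∈ S`, are composite, with a prime factor `≤ Y ^ (1 / 10)`; here `S` is an
arbitrary set of at most `c log Y log log Y` integers of size at most `(log Y) ^ b`, for instance a run of consecutive integers.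
Consequently the error terms of the formulas of Hardy-Littlewood (Bateman-Horn) for different polynomials cannot cancel: no
nonnegative combination of them is `o (log log N)`, not even on a sparse sequence of short intervals.

For one polynomial this is `Pool.Agent.H474R2.PG.composite_strings` of the starting library (helper474, after the record sieve of
helper256 and team); Ford, Konyagin, Maynard, Pomerance and Tao (Long gaps in sieved sets) have runs of length
`log Y (log log Y) ^ δ` with a small `δ`, for one polynomial.  A common run for several polynomials needs a covering sieve in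
which the density of the event `a prime kills the colour` depends on the colour (`Pool.Agent.N201.MC`), as the polynomials have
different numbers of roots modulo the same prime; coprimality of the translates of different polynomials (resultants); and a
greedy choice of the classes modulo the small primes for all the polynomials together.
-/

set_option autoImplicit false

namespace Pool.Agent.Results.MP_a1177c_nt.SimultaneousComposites

open Polynomial

/-- Let `F` be a finite set of nonconstant integer polynomials, and `b` a natural number.  There are `c > 0` and `Y₀` such that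
for all real `Y ≥ Y₀` and all natural `M ≥ Y`:
(1) for every set `S` of at most `c log Y log log Y` integers of absolute value at most `(log Y) ^ b` there is an integer `x` in
`(M, M + Y]` such that each number `f (x + s)`, `f ∈ F`, `s ∈ S`, has a prime factor `p ≤ Y ^ (1 / 10)` with `p < |f (x + s)|`;
(2) for all weights `w f ≥ 0` and constants `κ f ≥ 0` there is `N` in `[M, M + Y]` such that, with `P f N` the number of
`1 ≤ n ≤ N` for which `f n` is a prime number, the weighted sum `∑ w f (P f N - κ f ∫_2^N dt / log t)` over `f ∈ F` has absolute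
value at least `c (∑ w f κ f) (log Y / log M) log log Y`. -/
theorem result (F : Finset ℤ[X]) (hF : ∀ f ∈ F, 0 < f.natDegree) (b : ℕ) :
    ∃ c : ℝ, 0 < c ∧ ∃ Y₀ : ℝ, ∀ Y : ℝ, Y₀ ≤ Y → ∀ M : ℕ, Y ≤ M →
      (∀ S : Finset ℤ, (∀ s ∈ S, |(s : ℝ)| ≤ (Real.log Y) ^ b) →
        (S.card : ℝ) ≤ c * Real.log Y * Real.log (Real.log Y) →
        ∃ x : ℤ, (M : ℤ) < x ∧ (x : ℝ) ≤ M + Y ∧ ∀ f ∈ F, ∀ s ∈ S,
          ∃ p : ℕ, p.Prime ∧ (p : ℝ) ≤ Y ^ (1 / 10 : ℝ) ∧ (p : ℤ) ∣ f.eval (x + s) ∧
            (p : ℤ) < |f.eval (x + s)|) ∧
      (∀ w κ : ℤ[X] → ℝ, (∀ f ∈ F, 0 ≤ w f ∧ 0 ≤ κ f) →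
        ∃ N : ℕ, M ≤ N ∧ (N : ℝ) ≤ M + Y ∧
          c * (∑ f ∈ F, w f * κ f) * (Real.log Y / Real.log M) * Real.log (Real.log Y) ≤
            |∑ f ∈ F, w f * ((((Finset.Icc 1 N).filter
              (fun n : ℕ => (f.eval (n : ℤ)).toNat.Prime)).card : ℝ) -
                κ f * ∫ t in (2 : ℝ)..N, 1 / Real.log t)|) := by
  obtain ⟨c₁, hc₁, Y₁, h₁⟩ := Pool.Agent.N201.SP.composite F hF b
  obtain ⟨c₂, hc₂, Y₂, h₂⟩ := Pool.Agent.N201.SP.omega F hF
  refine ⟨min c₁ c₂, lt_min hc₁ hc₂, max (max Y₁ Y₂) 3, fun Y hY M hYM => ?_⟩
  have hY1 : Y₁ ≤ Y := (le_max_left _ _).trans ((le_max_left _ _).trans hY)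
  have hY2 : Y₂ ≤ Y := (le_max_right _ _).trans ((le_max_left _ _).trans hY)
  have hY3 : 3 ≤ Y := (le_max_right _ _).trans hY
  have hlogY : 1 < Real.log Y := by
    rw [Real.lt_log_iff_exp_lt (by linarith)]
    linarith [Real.exp_one_lt_d9]
  have hllY : 0 < Real.log (Real.log Y) := Real.log_pos hlogY
  have hlM : 0 < Real.log M := Real.log_pos (by linarith)
  refine ⟨fun S hS hcard => ?_, fun w κ hwκ => ?_⟩
  · have e : min c₁ c₂ * Real.log Y * Real.log (Real.log Y) ≤
        c₁ * Real.log Y * Real.log (Real.log Y) := by
      have := min_le_left c₁ c₂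
      gcongr
    obtain ⟨x, hx1, hx2, hx3⟩ := h₁ Y hY1 M (by exact_mod_cast hYM) S hS (hcard.trans e)
    refine ⟨x, hx1, ?_, hx3⟩
    have : (x : ℝ) ≤ M + Y / 2 := by exact_mod_cast hx2
    linarith
  · obtain ⟨N, hN1, hN2, hN3⟩ := h₂ Y hY2 M hYM w κ hwκ
    refine ⟨N, hN1, hN2, le_trans ?_ hN3⟩
    have h0 : 0 ≤ ∑ f ∈ F, w f * κ f :=
      Finset.sum_nonneg fun f hf => mul_nonneg (hwκ f hf).1 (hwκ f hf).2
    have h1 : 0 ≤ Real.log Y / Real.log M := by positivity
    have := min_le_right c₁ c₂
    gcongr

end Pool.Agent.Results.MP_a1177c_nt.SimultaneousComposites
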